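import Pool.Agent.Y466.FT.One

/-!
# The members of a family of knots which are not separated from the unknot

Starting library `Pool.Agent.H835R2.Knot.Defs`: `Word` (oriented sliced diagrams), `IsKnot`,
`Isotopic`, `IsInvariant v` (`v` is an invariant of oriented knots), `DegreeLE n v` (`v` is a Vassiliev
invariant of order at most `n`), `circle` (the diagram of the unknot without crossings).

`Pool.Agent.Y466.FT.Defs`: `Braid` (braid words), `pow w m` (the power `w ^ m`, `m ∈ ℤ`), `IsPure w`
(the permutation of the strands is trivial), `family u₀ w u q` (the diagram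
`u₀ w₁^{q₁} u₁ w₂^{q₂} u₂ ⋯ w_k^{q_k} u_k`: arbitrary parts `u₀, …, u_k` of a diagram, between them
powers of braid words on some or all of the strands).

`Pool.Agent.Y466.FT.Fam`: `Separated n D E` (some rational valued Vassiliev invariant of order at
most `n` has different values on `D` and `E`).
-/

set_option autoImplicit false

namespace Pool.Agent.Results.MP_5f6b43_gt.PureBraidLocus

open Pool.Agent.H835R2.Knot Pool.Agent.Y466.FT

open Finset Classical in
/-- Let `D(q)`, `q ∈ ℤ^k`, be a family of diagrams with powers of pure braids
`w_1^{q_1}, …, w_k^{q_k}` at fixed places, such that `D(1, …, 1)` is a knot diagram.  Then all of them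
are knot diagrams, and

* there are a number `d` and a polynomial `P` in `k` variables such that, for all `q`, the knot
  `D(q)` is separated from the unknot by rational Vassiliev invariants (that is, by the Kontsevich
  invariant) if and only if this is so with rational Vassiliev invariants of order at most `d`, and
  if and only if `P(q) ≠ 0`;
* if the `D(q)` with `q` in a Zariski dense subset of `ℤ^k` (for `k = 1`: in an infinite set) are not
  separated from the unknot by rational Vassiliev invariants, for instance, since they are trivial
  knots, then no `D(q)`, `q ∈ ℤ^k`, is separated from the unknot by rational Vassiliev invariants;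
* if one `D(q)` is separated from the unknot by rational Vassiliev invariants of order at most `n`,
  then, in every box `∏ A_i` with sides of at least `M` integers, all but a proportion of at most
  `n / M` of them are separated from the unknot by rational Vassiliev invariants of order at most
  `n`. -/
theorem result {k : ℕ} (u₀ : Word) (w : Fin k → Braid) (u : Fin k → Word)
    (hw : ∀ j, IsPure (w j)) (h : IsKnot (family u₀ w u 1)) :
    (∀ q, IsKnot (family u₀ w u q)) ∧
    (∃ (d : ℕ) (P : MvPolynomial (Fin k) ℚ), ∀ q : Fin k → ℤ,
      ((∃ n, Separated n (family u₀ w u q) circle) ↔ Separated d (family u₀ w u q) circle) ∧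
      (Separated d (family u₀ w u q) circle ↔
        MvPolynomial.eval (fun i => (q i : ℚ)) P ≠ 0)) ∧
    (∀ X : Set (Fin k → ℤ),
      (∀ R : MvPolynomial (Fin k) ℚ,
        (∀ q ∈ X, MvPolynomial.eval (fun i => (q i : ℚ)) R = 0) → R = 0) →
      (∀ q ∈ X, ∀ n, ¬ Separated n (family u₀ w u q) circle) →
      ∀ q n, ¬ Separated n (family u₀ w u q) circle) ∧
    (∀ n : ℕ, (∃ q, Separated n (family u₀ w u q) circle) →
      ∀ (A : Fin k → Finset ℤ) (M : ℕ), (∀ i, M ≤ (A i).card) →
        M * #{q ∈ Fintype.piFinset A | ¬ Separated n (family u₀ w u q) circle} ≤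
        n * ∏ i, (A i).card) := by
  have hD := fam_family hw h
  have hc : IsKnot circle := by decide +kernel
  refine ⟨hD.1, ?_, fun X hX h0 => dense_one hD hc X hX h0, ?_⟩
  · obtain ⟨d, P, hP⟩ := locus_one hD hc
    exact ⟨d, P, fun q => ⟨(hP q).2.symm, by
      rw [← not_iff_not, not_not]; exact (hP q).1.symm⟩⟩
  · rintro n ⟨q, hs⟩ A M hA
    exact zero_one_one hD hs A M hA

end Pool.Agent.Results.MP_5f6b43_gt.PureBraidLocus
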