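import Pool.Agent.Y466.RW.Unknot

/-!
# Random products of pure braids are separated from the unknot

Starting library `Pool.Agent.H835R2.Knot.Defs`: `Word` (oriented sliced diagrams), `IsKnot`,
`Isotopic`, `IsInvariant v` (`v` is an invariant of oriented knots), `DegreeLE n v` (`v` is a Vassiliev
invariant of order at most `n`), `circle` (the diagram of the unknot without crossings).

`Pool.Agent.Y466.FT.Defs`: `Braid` (braid words), `IsPure w` (the permutation of the strands is
trivial).  `Pool.Agent.Y466.RW.Defs`: `rand u₀ u x w`: each letter of the word `w` stands for `k` braid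
words, one for each place of the diagram `u₀ u₁ ⋯ u_k` (with `none` the empty letter), and their
products are inserted at the places.

`Pool.Agent.Y466.FT.Fam`: `Separated n D E` (some rational valued Vassiliev invariant of order at
most `n` has different values on `D` and `E`).
-/

set_option autoImplicit false

namespace Pool.Agent.Results.MP_5f6b43_gt.RandomKnots

open Pool.Agent.H835R2.Knot Pool.Agent.Y466.FT Pool.Agent.Y466.RW

open Finset Classical in
/-- Let `L` be an alphabet with `r` letters, each of which stands for `k` pure braids, one for each of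
`k` places of a diagram.  For a word `w` of length `N` in `L ∪ {∅}` let `D(w)` be the diagram with
the products of these pure braids inserted at the places, and suppose that the `D(s)` with one letter
are knot diagrams.  Then all of them are knot diagrams, and

* if one `D(w)` is separated from the unknot by rational Vassiliev invariants of order at most `n`
  (by the Kontsevich invariant up to degree `n`), then so is one with a word `w` of length at most
  `n`, and so is a random `D(w)`, `w` of length `N`, with probability at least
  `1 - 3 ((r + 1)/(N + 1))^(1/2^n)`;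
* if, for infinitely many `N`, a proportion of at least `δ > 0` of the `D(w)`, `w` of length `N`, is
  not separated from the unknot by rational Vassiliev invariants (for instance, since these are
  trivial knots), then no `D(w)` is separated from the unknot by rational Vassiliev invariants. -/
theorem result {L : Type} [Fintype L] {k : ℕ}
    (u₀ : Word) (u : Fin k → Word) (x : L → Fin k → Braid) (hx : ∀ s i, IsPure (x s i))
    (h : ∀ o : Option L, IsKnot (rand u₀ u x fun _ : Fin 1 => o)) :
    (∀ (N : ℕ) (w : Fin N → Option L), IsKnot (rand u₀ u x w)) ∧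
    (∀ n : ℕ, (∃ (N₀ : ℕ) (w₀ : Fin N₀ → Option L), Separated n (rand u₀ u x w₀) circle) →
      (∃ w : Fin n → Option L, Separated n (rand u₀ u x w) circle) ∧
      ∀ N : ℕ, (#{w : Fin N → Option L | ¬ Separated n (rand u₀ u x w) circle} : ℝ) ≤
        3 * (((Fintype.card L : ℝ) + 1) / (N + 1)) ^ ((1 / 2 : ℝ) ^ n) *
          ((Fintype.card L : ℝ) + 1) ^ N) ∧
    ((∃ δ : ℝ, 0 < δ ∧ ∀ N₀ : ℕ, ∃ N ≥ N₀, δ * ((Fintype.card L : ℝ) + 1) ^ N ≤
        #{w : Fin N → Option L | ∀ n, ¬ Separated n (rand u₀ u x w) circle}) →
      ∀ (N : ℕ) (w : Fin N → Option L) (n : ℕ), ¬ Separated n (rand u₀ u x w) circle) := by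
  have hD := wfam_rand hx h
  have e1 : ((Fintype.card (Option L) : ℕ) : ℝ) = (Fintype.card L : ℝ) + 1 := by
    rw [Fintype.card_option]; push_cast; rfl
  simp only [rand_eq]
  refine ⟨fun N w => hD.1 _, ?_, ?_⟩
  · rintro n ⟨N₀, w₀, hs⟩
    refine ⟨?_, fun N => ?_⟩
    · by_contra hcon
      push Not at hcon
      exact test_sep hD hcon _ hs
    · have := one_count hD hs N
      unfold bb at this
      rw [e1] at this
      convert this
  · rintro ⟨δ, hδ, hN⟩ N w n
    refine rigid hD ⟨δ, hδ, ?_⟩ (ev w) n
    rw [e1]
    convert hN

end Pool.Agent.Results.MP_5f6b43_gt.RandomKnots
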