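import Pool.Agent.Y466.SH.Main

/-!
# Short knots whose Kontsevich invariant is trivial in low degrees

Starting library `Pool.Agent.H835R2.Knot.Defs`: `Word` (oriented sliced diagrams), `IsKnot`,
`Isotopic`, `crossings`, `circle` (the unknot), `IsInvariant v` (`v` is an invariant of oriented
knots), `DegreeLE n v` (`v` is a Vassiliev invariant of order at most `n`, with values in any abelian
group).
-/

set_option autoImplicit false

namespace Pool.Agent.Results.MP_5f6b43_gt.ShortKnots

open Pool.Agent.H835R2.Knot

/-- For every `n ≥ 1` there are pairwise non-isotopic non-trivial knots `K 1, K 2, …`, `K j` with at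
most `j (8 n ^ α + 2)` crossings, `α = log 2 / log φ = 1.4404…` (`φ` is the golden ratio), all whose
Vassiliev invariants of order at most `n`, with values in any abelian group, are those of the
unknot.

So the part of the Kontsevich invariant of degree less than `(c / 10) ^ (1 / α)`, `1 / α = 0.694…`,
does not detect the non-trivial knots with at most `c` crossings. -/
theorem result (n : ℕ) (hn : 1 ≤ n) :
    ∃ K : ℕ → Word, (∀ j, IsKnot (K j)) ∧ (∀ i j, Isotopic (K i) (K j) → i = j) ∧
      (∀ j, 1 ≤ j → ¬ Isotopic (K j) circle) ∧
      (∀ j, (crossings (K j) : ℝ) ≤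
        j * (8 * (n : ℝ) ^ (Real.log 2 / Real.log Real.goldenRatio) + 2)) ∧
      ∀ (A : Type) [AddCommGroup A] (v : Word → A), IsInvariant v → DegreeLE n v →
        ∀ j, v (K j) = v circle := by
  obtain ⟨K, h0, h1, h2, h3, h4⟩ := Pool.Agent.Y466.SH.main n hn circle (by decide +kernel)
  refine ⟨K, h1, h2, fun j hj hI => ?_, fun j => ?_, h4⟩
  · rw [← h0] at hI
    have := h2 j 0 hI
    omega
  · have := h3 j
    have hc : crossings circle = 0 := by decide +kernel
    rw [hc, Nat.cast_zero, zero_add] at this
    exact this

end Pool.Agent.Results.MP_5f6b43_gt.ShortKnots
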