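import Pool.Agent.Y463.VC.Main

/-!
# Vassiliev invariants of bounded order detect the members of twist families up to a high codimension

Diagrams (starting library): `Pool.Agent.H891R2.Jones.Diagram` (`Diagram`: oriented link diagrams with marked
points; `Diagram.IsClosed`; `fPoly`: the normalised Kauffman bracket), `Pool.Agent.H891R2.MT.Defs`
(`UDiagram`: unoriented diagrams; `Orients D U`: `D` is `U` with directions; `Ribbon k`: ribbon graphs with `k`
edges; `Ribbon.Planar`: connected and plane; `Γ.verts`: the number of vertices; `Γ.link w`: the boundary of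
the plane surface with one disc for every vertex and a band with `w e` half twists, a row of `|w e|`
crossings, for every edge `e`) and `Pool.Agent.H891R2.SI.Defs`:
* `Sites k`: a diagram `O` (planar or not) with `k` open boxes (sites); `O.Connected`: the diagram is
  connected, each site being one piece; `O.crossings`: the crossings outside the sites;
* `O.fill w`, `w ∈ ℤ^k`: the site `e` is filled with two strands twisted around each other, a row of
  `|w e|` crossings of the kind given by the sign of `w e`;
* `det U`: the determinant, `|⟨U⟩|` at `A = e^{πi/4}`.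

`Pool.Agent.Y463.CD` (`Defs` and `Braid`):
* `Coset O 0 w`: the set of all `w' ∈ ℤ^k` with `w'(S) - w'(S') = w(S) - w(S')`, `w(S) = ∑ e ∈ S, w e`, for all
  sets `S`, `S'` of sites with `2 |w(S) - w(S')| ≤ 3 c + 6 k`, where `c` is the number of crossings of `O`: a
  coset of a subgroup of `ℤ^k`;
* `Many X n w`: there are `n` pairs `S i`, `S' i` of sets of sites such that the vectors `1_{S i} - 1_{S' i}` are
  linearly independent and `2 |w(S i) - w(S' i)| ≤ X` for all `i`; `one R` is the vector `1_R`;
* `flat O`: every site is filled with two strands without crossings, `pieces U`: the number of connected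
  pieces of the diagram `U` (for a diagram without crossings: the number of its closed curves);
* `braidSites m i hi`: the closure of the braid `σ_{i 0} ^ {w 0} σ_{i 1} ^ {w 1} ⋯` on `m` strands, as a diagram
  with one site for every factor.

Vassiliev invariants (starting library `Pool.Agent.H832R3.VJ.Defs`): `Separated d X Y` (some integer valued
Vassiliev invariant of oriented links of order at most `d` has different values on `X` and `Y`), `unknot`.
`Pool.Agent.Y463.VC.Defs`: `Hidden d U` (for some directions the closed diagram `U` is not separated from the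
unknot by Vassiliev invariants of order at most `d`) and `ord k c = 2 ^ k (6 c + 8 k + 1) + 4 k`.
-/

set_option autoImplicit false

namespace Pool.Agent.Results.MP_5f6b43_gt.TwistCodimensionOrder

open Finset Pool.Agent.H891R2.Jones Pool.Agent.H891R2.MT Pool.Agent.H891R2.SI Pool.Agent.Y463.CD
  Pool.Agent.Y463.VC
open Pool.Agent.H891R2.ZO (IsPow)

/-- Let `O` be a connected diagram with `k ≥ 1` twist sites and `c` crossings outside the sites, and let `H` be
the set of the `w ∈ ℤ^k` such that the link `O.fill w` is, for some directions, not separated from the unknot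
by Vassiliev invariants of order at most `ord k c`, a number which does not depend on `w`.
* `H` is contained in the union of the cosets of at most `(3^k (3 c + 6 k + 1) + 1)^k` members `w` of `ℤ^k`, on
  each of which the normalised bracket is `± A^n` for all members and all directions.
* Every `w ∈ H` satisfies `|w e| ≤ k k! (3 c + 6 k)` for all `e`, or all `O.fill (w + t y)`, `t ∈ ℤ`, have the
  normalised bracket `± A^n`, for some `y ≠ 0`.
* Let `n + 1` be at most the number of pieces of `O.fill 0` (or let all the links `O.fill (q + 1_R)`,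
  `|R| < n`, have determinant `0` for some `q ∈ ℤ^k`). For every `w ∈ H` there are `n` linearly independent
  vectors `1_S - 1_{S'}` with `2 |w(S) - w(S')| ≤ 3 c + 6 k`. Hence for all finite sets `A e ⊂ ℤ` with at least
  `M` elements, at most `(3^k (3 c + 6 k + 1) / M)^n ∏ |A e|` of the `w ∈ ∏ A e` are in `H`, in particular at
  most `(3^k (3 c + 6 k + 1))^n (2 N + 1)^(k - n)` of the `w` with `|w e| ≤ N` for all `e`.
* This holds with `c = 0` and `n = m - 1` for the closures of the braids `σ_{i 0} ^ {w 0} ⋯ σ_{i (k-1)} ^ {w (k-1)}`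
  on `m` strands, if every generator occurs, and with `c = 0` and `n = k + 1 - v`, the number of independent
  cycles, for the links `Γ.link w` of a connected plane graph with `v` vertices and `k` edges. -/
theorem result :
    (∀ (k : ℕ), 0 < k → ∀ (O : Sites k), O.Connected → 
      (∃ W : Finset (Fin k → ℤ), 
        W.card ≤ (3 ^ k * (3 * O.crossings.length + 6 * k + 1) + 1) ^ k ∧ 
        (∀ w ∈ W, ∀ w' ∈ Coset O 0 w, ∀ D : Diagram (O.P ⊕ Ribbon.Pt w'), Orients D (O.fill w') → 
          IsPow D.fPoly) ∧ 
        ∀ w, Hidden (ord k O.crossings.length) (O.fill w) → ∃ w' ∈ W, w ∈ Coset O 0 w') ∧ 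
      (∀ w, Hidden (ord k O.crossings.length) (O.fill w) → 
        (∀ e, |w e| ≤ k * k.factorial * (3 * O.crossings.length + 6 * k)) ∨ 
        ∃ y : Fin k → ℤ, y ≠ 0 ∧ ∀ (t : ℤ) (D : Diagram (O.P ⊕ Ribbon.Pt (w + t • y))), 
          Orients D (O.fill (w + t • y)) → IsPow D.fPoly) ∧ 
      ∀ n : ℕ, (n + 1 ≤ pieces (flat O) ∨ 
          ∃ q : Fin k → ℤ, ∀ R : Finset (Fin k), R.card < n → det (O.fill (q + one R)) = 0) → 
        (∀ w, Hidden (ord k O.crossings.length) (O.fill w) → 
          Many (3 * O.crossings.length + 6 * k) n w) ∧ 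
        (∀ (A : Fin k → Finset ℤ) (M : ℕ), (∀ e, M ≤ (A e).card) → ∀ B : Finset (Fin k → ℤ), 
          (∀ w ∈ B, (∀ e, w e ∈ A e) ∧ Hidden (ord k O.crossings.length) (O.fill w)) → 
            M ^ n * B.card ≤ 
              (3 ^ k * (3 * O.crossings.length + 6 * k + 1)) ^ n * ∏ e, (A e).card) ∧ 
        ∀ N : ℕ, {w : Fin k → ℤ | (∀ e, |w e| ≤ N) ∧ 
            Hidden (ord k O.crossings.length) (O.fill w)}.ncard ≤ 
          (3 ^ k * (3 * O.crossings.length + 6 * k + 1)) ^ n * (2 * N + 1) ^ (k - n)) ∧ 
    (∀ (k m : ℕ), 0 < k → ∀ (i : Fin k → ℕ) (hi : ∀ j, i j + 1 < m), (∀ x, x + 1 < m → ∃ j, i j = x) → 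
      (∀ w, Hidden (ord k 0) ((braidSites m i hi).fill w) → Many (6 * k) (m - 1) w) ∧ 
      ∀ N : ℕ, {w : Fin k → ℤ | (∀ e, |w e| ≤ N) ∧ 
          Hidden (ord k 0) ((braidSites m i hi).fill w)}.ncard ≤ 
        (3 ^ k * (6 * k + 1)) ^ (m - 1) * (2 * N + 1) ^ (k - (m - 1))) ∧ 
    (∀ (k : ℕ), 0 < k → ∀ (Γ : Ribbon k), Γ.Planar → 
      (∀ w : Fin k → ℤ, Hidden (ord k 0) (Γ.link w) → Many (6 * k) (k + 1 - Γ.verts) w) ∧ 
      ∀ N : ℕ, {w : Fin k → ℤ | (∀ e, |w e| ≤ N) ∧ Hidden (ord k 0) (Γ.link w)}.ncard ≤ 
        (3 ^ k * (6 * k + 1)) ^ (k + 1 - Γ.verts) * (2 * N + 1) ^ (Γ.verts - 1)) := by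
  refine ⟨?_, ?_, ?_⟩
  · intro k hk O hO
    have hrig : ∀ w, Hidden (ord k O.crossings.length) (O.fill w) → ∀ w' ∈ Coset O 0 w, 
        ∀ D : Diagram (O.P ⊕ Ribbon.Pt w'), Orients D (O.fill w') → IsPow D.fPoly := by
      intro w hw w' hw' D' hD'
      obtain ⟨D, hD, hf⟩ := exists_one hk O hO w hw
      obtain ⟨u, hu, h1⟩ := rigid_fPoly O hk hO 0 w w' (site hk O hO w hw).1 hw' D hD D' hD'
      rw [h1, hf, mul_one]
      exact hu
    refine ⟨cosets hk O hO, ?_, ?_⟩
    · intro w hw
      rcases big_or_line O 0 w with h | ⟨y, hy, h⟩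
      · left
        simpa using h
      · exact Or.inr ⟨y, hy, fun t D hD => hrig w hw _ (h t) D hD⟩
    · intro n hn
      have h1 := many_of_small O hk hO 0 n hn
      simp only [mul_zero, add_zero] at h1
      have h2 : ∀ w, Hidden (ord k O.crossings.length) (O.fill w) → 
          Many (3 * O.crossings.length + 6 * k) n w := 
        fun w hw => h1 w (site hk O hO w hw).1 (site hk O hO w hw).2
      have h3 := count_of_many (3 * O.crossings.length + 6 * k) n 
        (fun w => Hidden (ord k O.crossings.length) (O.fill w)) h2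
      exact ⟨h2, h3.1, h3.2⟩
  · intro k m hk i hi hall
    have h2 : ∀ w, Hidden (ord k 0) ((braidSites m i hi).fill w) → Many (6 * k) (m - 1) w := by
      intro w hw
      have h1 := site hk (braidSites m i hi) (braid_connected i hi hall) w hw
      have h3 := many_braid hk i hi hall 0 w h1.1 h1.2
      simpa using h3
    exact ⟨h2, (count_of_many (6 * k) (m - 1) 
      (fun w => Hidden (ord k 0) ((braidSites m i hi).fill w)) h2).2⟩
  · intro k hk Γ hΓ
    have h2 : ∀ w, Hidden (ord k 0) (Γ.link w) → Many (6 * k) (k + 1 - Γ.verts) w := by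
      intro w hw
      have h1 := graph hk Γ hΓ w hw
      have h3 := many_graph Γ hk hΓ 0 w h1.1 h1.2
      simpa using h3
    have h3 := (count_of_many (6 * k) (k + 1 - Γ.verts) 
      (fun w => Hidden (ord k 0) (Γ.link w)) h2).2
    have h4 : 0 < Γ.faces := by
      unfold Ribbon.faces
      have : Nonempty (Quot (fun x y : Fin k × Bool => Pool.Agent.H891R2.MT.flip (Γ.rot x) = y)) :=
        ⟨Quot.mk _ (⟨0, hk⟩, true)⟩
      have : Finite (Quot (fun x y : Fin k × Bool => Pool.Agent.H891R2.MT.flip (Γ.rot x) = y)) := 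
        Quot.finite _
      exact Nat.card_pos
    have h6 := hΓ.2
    have h5 : k - (k + 1 - Γ.verts) = Γ.verts - 1 := by omega
    rw [h5] at h3
    exact ⟨h2, h3⟩

end Pool.Agent.Results.MP_5f6b43_gt.TwistCodimensionOrder
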